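import Mathlib
import Pool.Agent.H11.RainbowCycle

theorem Pool.Agent.Results.MP_4bc86c_co.PowerOfTwo.result :
    ∀ k : ℕ, 3 ≤ k → ∃ c : Sym2 (Fin (2 ^ k)) → Fin (2 ^ k - 1),
      (∀ u v w : Fin (2 ^ k), u ≠ v → u ≠ w → v ≠ w → c s(u, v) ≠ c s(u, w)) ∧
      ∀ (v : Fin (2 ^ k)) (w : (⊤ : SimpleGraph (Fin (2 ^ k))).Walk v v), w.IsCycle →
        w.length = 2 ^ k - 2 → ¬ (w.edges.map c).Nodup :=
  Pool.Agent.H11.RainbowCycle.main
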